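import Pool.Agent.T2H15.AC.Data

/-!
# A uniform ternary morphism: progressions starting in the image of the letter 0

Project AC (helper15), problem `MP_afd3e6_co`.
-/

set_option autoImplicit false

namespace Pool.Agent.T2H15.AC

theorem cap0 : allB 155 (fun r => allB 3 fun b => allB 155 fun s =>
    chkN r (R 0 r) s (R b s)) = true := by
  decide +kernel

end Pool.Agent.T2H15.AC
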