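import Pool.Agent.T2H15.AC.Ap0
import Pool.Agent.T2H15.AC.Ap1
import Pool.Agent.T2H15.AC.Ap2

/-!
# A uniform ternary morphism: the data are correct

Project AC (helper15), problem `MP_afd3e6_co`.
-/

set_option autoImplicit false

namespace Pool.Agent.T2H15.AC

theorem cG : allB 3 (fun a => allB 155 fun r => Nat.blt (G a r) 3) = true := by decide +kernel

theorem cP10 : allB 3 (fun a => Nat.beq (P1 a 0) 0) = true := by decide +kernel

theorem cP20 : allB 3 (fun a => Nat.beq (P2 a 0) 0) = true := by decide +kernel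

theorem cP1s : allB 3 (fun a => allB 155 fun r =>
    Nat.beq (P1 a (r + 1)) (P1 a r + cond (Nat.beq (G a r) 1) 1 0)) = true := by
  decide +kernel

theorem cP2s : allB 3 (fun a => allB 155 fun r =>
    Nat.beq (P2 a (r + 1)) (P2 a r + cond (Nat.beq (G a r) 2) 1 0)) = true := by
  decide +kernel

theorem com : allB 3 (fun a => Nat.beq ((8 * P1 a 155 + 13 * P2 a 155) % 43) 20) = true := by
  decide +kernel

theorem cR : allB 3 (fun a => allB 155 fun r =>
    Nat.beq (R a r) ((8 * P1 a r + 13 * P2 a r) % 43)) = true := by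
  decide +kernel

theorem coc : allB 3 (fun a => allB 155 fun r => occN (r * 43 + R a r)) = true := by
  decide +kernel

/-- equal prefixes -/
def ty0 (r a b : ℕ) : Bool :=
  or (not (Nat.beq (R a r) (R b r))) (and (Nat.beq (P1 a r) (P1 b r)) (Nat.beq (P2 a r) (P2 b r)))

/-- equal rests -/
def ty1 (r a b : ℕ) : Bool :=
  or (not (Nat.beq (R a r) (R b r)))
    (and (Nat.beq (P1 a r + P1 b 155) (P1 b r + P1 a 155))
      (Nat.beq (P2 a r + P2 b 155) (P2 b r + P2 a 155)))

theorem cco : allB 155 (fun r => allB 3 fun a => or (allB 3 fun b => ty0 r a b)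
    (allB 3 fun b => ty1 r a b)) = true := by
  decide +kernel

theorem P1L : P1 0 155 = 43 ∧ P1 1 155 = 39 ∧ P1 2 155 = 30 := by decide +kernel

theorem P2L : P2 0 155 = 28 ∧ P2 1 155 = 47 ∧ P2 2 155 = 79 := by decide +kernel

theorem beq_false_ne {a b : ℕ} (h : (!(Nat.beq a b)) = true) : a ≠ b := by
  intro e
  subst e
  rw [Nat.beq_refl] at h
  exact absurd h (by decide)

theorem ok : Ok M where
  L0 := by decide
  D0 := by decide
  beD := by decide
  G3 := fun a ha r hr => by
    have h := allB_spec _ _ (allB_spec _ _ cG a ha) r hr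
    exact Nat.le_of_ble_eq_true h
  P10 := fun a ha => Nat.eq_of_beq_eq_true (allB_spec _ _ cP10 a ha)
  P20 := fun a ha => Nat.eq_of_beq_eq_true (allB_spec _ _ cP20 a ha)
  P1s := fun a ha r hr => Nat.eq_of_beq_eq_true (allB_spec _ _ (allB_spec _ _ cP1s a ha) r hr)
  P2s := fun a ha r hr => Nat.eq_of_beq_eq_true (allB_spec _ _ (allB_spec _ _ cP2s a ha) r hr)
  om := fun a ha => Nat.eq_of_beq_eq_true (allB_spec _ _ com a ha)
  R1 := fun a ha r hr => Nat.eq_of_beq_eq_true (allB_spec _ _ (allB_spec _ _ cR a ha) r hr)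
  oc := fun a ha r hr => allB_spec _ _ (allB_spec _ _ coc a ha) r hr
  ap := fun a ha r hr b hb s hs => by
    have h3 : a = 0 ∨ a = 1 ∨ a = 2 := by omega
    have hr' : r < 155 := hr
    have hs' : s < 155 := hs
    rcases h3 with rfl | rfl | rfl
    · exact allB_spec _ _ (allB_spec _ _ (allB_spec _ _ cap0 r hr') b hb) s hs'
    · exact allB_spec _ _ (allB_spec _ _ (allB_spec _ _ cap1 r hr') b hb) s hs'
    · exact allB_spec _ _ (allB_spec _ _ (allB_spec _ _ cap2 r hr') b hb) s hs'
  co := fun r hr a ha => by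
    have h := allB_spec _ _ (allB_spec _ _ cco r hr) a ha
    rw [Bool.or_eq_true] at h
    rcases h with h | h
    · refine Or.inl fun b hb hR => ?_
      have h1 := allB_spec _ _ h b hb
      unfold ty0 at h1
      rw [Bool.or_eq_true, Bool.and_eq_true] at h1
      rcases h1 with h1 | h1
      · exact absurd hR (beq_false_ne h1)
      · exact ⟨Nat.eq_of_beq_eq_true h1.1, Nat.eq_of_beq_eq_true h1.2⟩
    · refine Or.inr fun b hb hR => ?_
      have h1 := allB_spec _ _ h b hb
      unfold ty1 at h1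
      rw [Bool.or_eq_true, Bool.and_eq_true] at h1
      rcases h1 with h1 | h1
      · exact absurd hR (beq_false_ne h1)
      · exact ⟨Nat.eq_of_beq_eq_true h1.1, Nat.eq_of_beq_eq_true h1.2⟩
  inv := fun u v w hw h1 h2 => by
    have e1 : (M.P1 0 M.L : ℤ) = 43 := by exact_mod_cast P1L.1
    have e2 : (M.P1 1 M.L : ℤ) = 39 := by exact_mod_cast P1L.2.1
    have e3 : (M.P1 2 M.L : ℤ) = 30 := by exact_mod_cast P1L.2.2
    have e4 : (M.P2 0 M.L : ℤ) = 28 := by exact_mod_cast P2L.1
    have e5 : (M.P2 1 M.L : ℤ) = 47 := by exact_mod_cast P2L.2.1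
    have e6 : (M.P2 2 M.L : ℤ) = 79 := by exact_mod_cast P2L.2.2
    rw [e1, e2, e3, hw] at h1
    rw [e4, e5, e6, hw] at h2
    constructor <;> omega

/-! ### The morphism as lists -/

/-- the morphism -/
def img (x : Fin 3) : List (Fin 3) := match x with
  | 0 => img0
  | 1 => img1
  | 2 => img2

theorem img_length (x : Fin 3) : (img x).length = 155 := by
  fin_cases x <;> decide +kernel

theorem img_G : ∀ x : Fin 3, ∀ r : Fin 155, ((img x).getD r 0).val = G x r := by
  decide +kernel

theorem img_count : ∀ x : Fin 3, (img x).count 0 = [84, 69, 46].getD x 0 ∧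
    (img x).count 1 = [43, 39, 30].getD x 0 ∧ (img x).count 2 = [28, 47, 79].getD x 0 := by
  decide +kernel

end Pool.Agent.T2H15.AC
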