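import Mathlib

/-!
# Fixed points of uniform ternary morphisms without abelian cubes

Project AC (helper15), problem `MP_afd3e6_co`. A uniform morphism `h` of the three letter alphabet, with images of
length `L`. The prefix of length `n` of a fixed point has `N₁ n` letters `1` and `N₂ n` letters `2`. Let `o₁, o₂, be, D` be
such that `o₁ |h(x)|₁ + o₂ |h(x)|₂ ≡ be (mod D)` for all three letters `x`. If the classes of the points
`(r, o₁ |p|₁ + o₂ |p|₂)`, `p` the prefix of length `r < L` of some `h(x)`, in the quotient of `ℤ²` by the lattice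
generated by `(L, be)` and `(0, D)` contain no nontrivial progression of four terms, and if equal classes
come from prefixes with the same letters, or with the same letters in the rests, then the positions
of an abelian cube are congruent modulo `L`, and the cube comes from a smaller one.
-/

set_option autoImplicit false

namespace Pool.Agent.T2H15.AC

/-- bounded conjunction -/
def allB (n : ℕ) (f : ℕ → Bool) : Bool := Nat.rec true (fun k ih => and (f k) ih) n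

theorem allB_spec (n : ℕ) (f : ℕ → Bool) (h : allB n f = true) : ∀ k < n, f k = true := by
  induction n with
  | zero => intro k hk; omega
  | succ n ih =>
    intro k hk
    have h' : (f n && allB n f) = true := h
    rw [Bool.and_eq_true] at h'
    rcases Nat.lt_succ_iff_lt_or_eq.1 hk with h1 | h1
    · exact ih h'.2 k h1
    · rw [h1]; exact h'.1

/-- a uniform morphism with the data of the check -/
structure Dat where
  /-- length of the images -/
  L : ℕ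
  /-- modulus -/
  D : ℕ
  /-- weight of the images -/
  be : ℕ
  /-- weight of the letter one -/
  o1 : ℕ
  /-- weight of the letter two -/
  o2 : ℕ
  /-- letter at place `r` of the image of `a` -/
  G : ℕ → ℕ → ℕ
  /-- number of the ones before the place `r` in the image of `a` -/
  P1 : ℕ → ℕ → ℕ
  /-- number of the twos before the place `r` in the image of `a` -/
  P2 : ℕ → ℕ → ℕ
  /-- residue of the weight -/
  R : ℕ → ℕ → ℕ
  /-- occupied classes, as the bits of a number -/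
  OCC : ℕ

variable (M : Dat)

/-- membership of a class -/
def occ (k : ℕ) : Bool := Nat.beq ((M.OCC >>> k) % 2) 1

/-- the check for the progressions starting with the classes `(r0, w0)`, `(r1, w1)` -/
def chk (r0 w0 r1 w1 : ℕ) : Bool :=
  or (and (Nat.beq r0 r1) (Nat.beq w0 w1))
    (or (not (occ M ((2 * r1 + M.L - r0) % M.L * M.D +
        (2 * w1 + (M.D - w0) + M.be + (M.D - M.be) * ((2 * r1 + M.L - r0) / M.L)) % M.D)))
      (not (occ M ((3 * r1 + 2 * M.L - 2 * r0) % M.L * M.D +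
        (3 * w1 + 2 * (M.D - w0) + 2 * M.be +
          (M.D - M.be) * ((3 * r1 + 2 * M.L - 2 * r0) / M.L)) % M.D))))

/-- correctness of the data -/
structure Ok : Prop where
  L0 : 2 ≤ M.L
  D0 : 0 < M.D
  beD : M.be < M.D
  G3 : ∀ a < 3, ∀ r < M.L, M.G a r < 3
  P10 : ∀ a < 3, M.P1 a 0 = 0
  P20 : ∀ a < 3, M.P2 a 0 = 0
  P1s : ∀ a < 3, ∀ r < M.L, M.P1 a (r + 1) = M.P1 a r + cond (Nat.beq (M.G a r) 1) 1 0
  P2s : ∀ a < 3, ∀ r < M.L, M.P2 a (r + 1) = M.P2 a r + cond (Nat.beq (M.G a r) 2) 1 0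
  om : ∀ a < 3, (M.o1 * M.P1 a M.L + M.o2 * M.P2 a M.L) % M.D = M.be
  R1 : ∀ a < 3, ∀ r < M.L, M.R a r = (M.o1 * M.P1 a r + M.o2 * M.P2 a r) % M.D
  oc : ∀ a < 3, ∀ r < M.L, occ M (r * M.D + M.R a r) = true
  ap : ∀ a < 3, ∀ r < M.L, ∀ b < 3, ∀ s < M.L, chk M r (M.R a r) s (M.R b s) = true
  co : ∀ r < M.L, ∀ a < 3,
    (∀ b < 3, M.R a r = M.R b r → M.P1 a r = M.P1 b r ∧ M.P2 a r = M.P2 b r) ∨
    (∀ b < 3, M.R a r = M.R b r → M.P1 a r + M.P1 b M.L = M.P1 b r + M.P1 a M.L ∧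
      M.P2 a r + M.P2 b M.L = M.P2 b r + M.P2 a M.L)
  inv : ∀ u v w : ℤ, w = 0 →
    (M.P1 0 M.L : ℤ) * w + ((M.P1 1 M.L : ℤ) - M.P1 0 M.L) * u +
      ((M.P1 2 M.L : ℤ) - M.P1 0 M.L) * v = 0 →
    (M.P2 0 M.L : ℤ) * w + ((M.P2 1 M.L : ℤ) - M.P2 0 M.L) * u +
      ((M.P2 2 M.L : ℤ) - M.P2 0 M.L) * v = 0 → u = 0 ∧ v = 0

/-- `z` is a fixed point -/
def Fix (z : ℕ → ℕ) : Prop := (∀ n, z n < 3) ∧ ∀ m r, r < M.L → z (M.L * m + r) = M.G (z m) r

/-- number of the letters `c` before the place `n` -/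
def N (z : ℕ → ℕ) (c n : ℕ) : ℤ := ∑ k ∈ Finset.range n, if z k = c then 1 else 0

theorem N_succ (z : ℕ → ℕ) (c n : ℕ) : N z c (n + 1) = N z c n + if z n = c then 1 else 0 := by
  unfold N
  rw [Finset.sum_range_succ]

theorem cond_cast (a b : ℕ) :
    ((cond (Nat.beq a b) 1 0 : ℕ) : ℤ) = if a = b then 1 else 0 := by
  by_cases h : a = b
  · subst h
    have : Nat.beq a a = true := Nat.beq_refl a
    rw [this, if_pos rfl]
    rfl
  · have : Nat.beq a b = false := by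
      rw [Bool.eq_false_iff]
      intro h1
      exact h (Nat.eq_of_beq_eq_true h1)
    rw [this, if_neg h]
    rfl

/-- coefficient of the prefix counts -/
theorem N_image (P : ℕ → ℕ → ℕ) (c : ℕ) (z : ℕ → ℕ) (hz : Fix M z)
    (P0 : ∀ a < 3, P a 0 = 0)
    (Ps : ∀ a < 3, ∀ r < M.L, P a (r + 1) = P a r + cond (Nat.beq (M.G a r) c) 1 0)
    (m r : ℕ) (hr : r ≤ M.L) :
    N z c (M.L * m + r) = (P 0 M.L : ℤ) * m + ((P 1 M.L : ℤ) - P 0 M.L) * N z 1 m +
      ((P 2 M.L : ℤ) - P 0 M.L) * N z 2 m + P (z m) r := by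
  obtain ⟨hz3, hzi⟩ := hz
  have inner : ∀ m, N z c (M.L * m) = (P 0 M.L : ℤ) * m + ((P 1 M.L : ℤ) - P 0 M.L) * N z 1 m +
      ((P 2 M.L : ℤ) - P 0 M.L) * N z 2 m → ∀ r, r ≤ M.L →
      N z c (M.L * m + r) = (P 0 M.L : ℤ) * m + ((P 1 M.L : ℤ) - P 0 M.L) * N z 1 m +
      ((P 2 M.L : ℤ) - P 0 M.L) * N z 2 m + P (z m) r := by
    intro m hm r
    induction r with
    | zero => intro _; rw [P0 _ (hz3 m)]; simp [hm]
    | succ r ih =>
      intro hr
      have h1 := ih (by omega)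
      rw [← Nat.add_assoc, N_succ, h1, hzi m r (by omega), Ps _ (hz3 m) _ (by omega)]
      push_cast
      rw [← cond_cast]
      ring
  have base : ∀ m, N z c (M.L * m) = (P 0 M.L : ℤ) * m + ((P 1 M.L : ℤ) - P 0 M.L) * N z 1 m +
      ((P 2 M.L : ℤ) - P 0 M.L) * N z 2 m := by
    intro m
    induction m with
    | zero => simp [N]
    | succ m ih =>
      have h1 := inner m ih M.L le_rfl
      rw [Nat.mul_succ, h1, N_succ, N_succ]
      have h3 := hz3 m
      have h4 : z m = 0 ∨ z m = 1 ∨ z m = 2 := by omega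
      rcases h4 with h4 | h4 | h4
      · rw [h4]; simp; ring
      · rw [h4]; simp; ring
      · rw [h4]; simp; ring
  exact inner m (base m) r hr

/-- carry of a second difference -/
theorem carry (L m0 m1 m2 r0 r1 r2 : ℕ) (h0 : r0 < L) (_h1 : r1 < L) (h2 : r2 < L)
    (h : (L * m0 + r0) + (L * m2 + r2) = 2 * (L * m1 + r1)) :
    ∃ c, m0 + m2 + 1 = 2 * m1 + c ∧ r0 + r2 + L * c = 2 * r1 + L := by
  have hle : 2 * m1 ≤ m0 + m2 + 1 := by
    by_contra hcon
    push Not at hcon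
    have h3 : L * (m0 + m2 + 2) ≤ L * (2 * m1) := Nat.mul_le_mul_left L (by omega)
    have h4 : L * (m0 + m2 + 2) = L * m0 + L * m2 + 2 * L := by ring
    have h5 : L * (2 * m1) = 2 * (L * m1) := by ring
    omega
  refine ⟨m0 + m2 + 1 - 2 * m1, by omega, ?_⟩
  obtain ⟨c, hc⟩ := Nat.exists_eq_add_of_le hle
  have : m0 + m2 + 1 - 2 * m1 = c := by omega
  rw [this]
  have h3 : L * (m0 + m2 + 1) = L * (2 * m1 + c) := by rw [hc]
  have h4 : L * (m0 + m2 + 1) = L * m0 + L * m2 + L := by ring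
  have h5 : L * (2 * m1 + c) = 2 * (L * m1) + L * c := by ring
  omega

/-- an abelian cube of period `q` at the place `j` -/
def Cube (z : ℕ → ℕ) (j q : ℕ) : Prop :=
  ∀ c, (c = 1 ∨ c = 2) → N z c j + N z c (j + 2 * q) = 2 * N z c (j + q) ∧
    N z c (j + q) + N z c (j + 3 * q) = 2 * N z c (j + 2 * q)

/-- the classes of the four places of a progression are equal -/
theorem classes (h : Ok M) (a0 a1 a2 a3 r0 r1 r2 r3 m0 m1 m2 m3 : ℕ) (ha0 : a0 < 3) (ha1 : a1 < 3)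
    (ha2 : a2 < 3) (ha3 : a3 < 3) (h0 : r0 < M.L) (h1 : r1 < M.L) (h2 : r2 < M.L) (h3 : r3 < M.L)
    (e2 : (M.L * m0 + r0) + (M.L * m2 + r2) = 2 * (M.L * m1 + r1))
    (e3 : (M.L * m1 + r1) + (M.L * m3 + r3) = 2 * (M.L * m2 + r2))
    (v2 : (M.be : ZMod M.D) * m0 + M.R a0 r0 + (M.be * m2 + M.R a2 r2) =
      2 * (M.be * m1 + M.R a1 r1))
    (v3 : (M.be : ZMod M.D) * m1 + M.R a1 r1 + (M.be * m3 + M.R a3 r3) =
      2 * (M.be * m2 + M.R a2 r2)) :
    r0 = r1 ∧ M.R a0 r0 = M.R a1 r1 := by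
  obtain ⟨c2, hc2, hc2'⟩ := carry M.L m0 m1 m2 r0 r1 r2 h0 h1 h2 e2
  obtain ⟨c3, hc3, hc3'⟩ := carry M.L m1 m2 m3 r1 r2 r3 h1 h2 h3 e3
  have hD := h.D0
  have hRlt : ∀ a < 3, ∀ r < M.L, M.R a r < M.D := by
    intro a ha r hr
    rw [h.R1 a ha r hr]
    exact Nat.mod_lt _ hD
  have hR0 := hRlt a0 ha0 r0 h0
  have hbe := h.beD
  have hDz : ((M.D : ℕ) : ZMod M.D) = 0 := ZMod.natCast_self _
  -- the third class
  have d2 : 2 * r1 + M.L - r0 = r2 + M.L * c2 := by omega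
  have m2' : (2 * r1 + M.L - r0) % M.L = r2 := by
    rw [d2, Nat.add_mul_mod_self_left, Nat.mod_eq_of_lt h2]
  have q2' : (2 * r1 + M.L - r0) / M.L = c2 := by
    rw [d2, Nat.add_mul_div_left _ _ (by omega), Nat.div_eq_of_lt h2, Nat.zero_add]
  have w2' : (2 * M.R a1 r1 + (M.D - M.R a0 r0) + M.be + (M.D - M.be) * c2) % M.D = M.R a2 r2 := by
    have hc2z : (m0 : ZMod M.D) + m2 + 1 = 2 * m1 + c2 := by exact_mod_cast congrArg _ hc2
    have : ((2 * M.R a1 r1 + (M.D - M.R a0 r0) + M.be + (M.D - M.be) * c2 : ℕ) : ZMod M.D) =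
        ((M.R a2 r2 : ℕ) : ZMod M.D) := by
      push_cast [Nat.cast_sub hR0.le, Nat.cast_sub hbe.le]
      rw [hDz]
      linear_combination (M.be : ZMod M.D) * hc2z - v2
    have h5 := (ZMod.natCast_eq_natCast_iff' _ _ _).1 this
    rw [h5, Nat.mod_eq_of_lt (hRlt a2 ha2 r2 h2)]
  -- the fourth class
  obtain ⟨c4, hc4⟩ : ∃ c4, c4 + 1 = 2 * c2 + c3 := by
    rcases Nat.eq_zero_or_pos (2 * c2 + c3) with h6 | h6
    · exfalso
      have h7 : c2 = 0 := by omega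
      have h8 : c3 = 0 := by omega
      subst h7 h8
      omega
    · exact ⟨2 * c2 + c3 - 1, by omega⟩
  have d3 : 3 * r1 + 2 * M.L - 2 * r0 = r3 + M.L * c4 := by
    have h6 : M.L * (c4 + 1) = M.L * (2 * c2 + c3) := by rw [hc4]
    have h7 : M.L * (c4 + 1) = M.L * c4 + M.L := by ring
    have h8 : M.L * (2 * c2 + c3) = 2 * (M.L * c2) + M.L * c3 := by ring
    omega
  have m3' : (3 * r1 + 2 * M.L - 2 * r0) % M.L = r3 := by
    rw [d3, Nat.add_mul_mod_self_left, Nat.mod_eq_of_lt h3]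
  have q3' : (3 * r1 + 2 * M.L - 2 * r0) / M.L = c4 := by
    rw [d3, Nat.add_mul_div_left _ _ (by omega), Nat.div_eq_of_lt h3, Nat.zero_add]
  have w3' : (3 * M.R a1 r1 + 2 * (M.D - M.R a0 r0) + 2 * M.be + (M.D - M.be) * c4) % M.D =
      M.R a3 r3 := by
    have hc2z : (m0 : ZMod M.D) + m2 + 1 = 2 * m1 + c2 := by exact_mod_cast congrArg _ hc2
    have hc3z : (m1 : ZMod M.D) + m3 + 1 = 2 * m2 + c3 := by exact_mod_cast congrArg _ hc3
    have hc4z : (c4 : ZMod M.D) + 1 = 2 * c2 + c3 := by exact_mod_cast congrArg _ hc4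
    have : ((3 * M.R a1 r1 + 2 * (M.D - M.R a0 r0) + 2 * M.be + (M.D - M.be) * c4 : ℕ) :
        ZMod M.D) = ((M.R a3 r3 : ℕ) : ZMod M.D) := by
      push_cast [Nat.cast_sub hR0.le, Nat.cast_sub hbe.le]
      rw [hDz]
      linear_combination 2 * (M.be : ZMod M.D) * hc2z + (M.be : ZMod M.D) * hc3z -
        (M.be : ZMod M.D) * hc4z - 2 * v2 - v3
    have h5 := (ZMod.natCast_eq_natCast_iff' _ _ _).1 this
    rw [h5, Nat.mod_eq_of_lt (hRlt a3 ha3 r3 h3)]
  have hchk := h.ap a0 ha0 r0 h0 a1 ha1 r1 h1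
  unfold chk at hchk
  rw [m2', q2', m3', q3', w2', w3', h.oc a2 ha2 r2 h2, h.oc a3 ha3 r3 h3] at hchk
  simp only [Bool.not_true, Bool.or_false, Bool.and_eq_true] at hchk
  exact ⟨Nat.eq_of_beq_eq_true hchk.1, Nat.eq_of_beq_eq_true hchk.2⟩

/-- a fixed point has no abelian cubes -/
theorem no_cube (h : Ok M) (z : ℕ → ℕ) (hz : Fix M z) (q : ℕ) : ∀ j, 0 < q → ¬ Cube z j q := by
  induction q using Nat.strong_induction_on with
  | _ q ih =>
    intro j hq hc
    have hL0 : 0 < M.L := by have := h.L0; omega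
    obtain ⟨m0, r0, hr0, en0⟩ : ∃ m r, r < M.L ∧ M.L * m + r = j :=
      ⟨j / M.L, j % M.L, Nat.mod_lt _ hL0, Nat.div_add_mod _ _⟩
    obtain ⟨m1, r1, hr1, en1⟩ : ∃ m r, r < M.L ∧ M.L * m + r = j + q :=
      ⟨(j + q) / M.L, (j + q) % M.L, Nat.mod_lt _ hL0, Nat.div_add_mod _ _⟩
    obtain ⟨m2, r2, hr2, en2⟩ : ∃ m r, r < M.L ∧ M.L * m + r = j + 2 * q :=
      ⟨(j + 2 * q) / M.L, (j + 2 * q) % M.L, Nat.mod_lt _ hL0, Nat.div_add_mod _ _⟩
    obtain ⟨m3, r3, hr3, en3⟩ : ∃ m r, r < M.L ∧ M.L * m + r = j + 3 * q :=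
      ⟨(j + 3 * q) / M.L, (j + 3 * q) % M.L, Nat.mod_lt _ hL0, Nat.div_add_mod _ _⟩
    obtain ⟨s1, t1⟩ := hc 1 (Or.inl rfl)
    obtain ⟨s2, t2⟩ := hc 2 (Or.inr rfl)
    have hN1 : ∀ m r, r ≤ M.L → _ := fun m r hr => N_image M M.P1 1 z hz h.P10 h.P1s m r hr
    have hN2 : ∀ m r, r ≤ M.L → _ := fun m r hr => N_image M M.P2 2 z hz h.P20 h.P2s m r hr
    have z0 := hz.1 m0
    have z1 := hz.1 m1
    have z2 := hz.1 m2
    have z3 := hz.1 m3
    rw [← en1, ← en2, ← en0, hN1 m0 r0 hr0.le, hN1 m1 r1 hr1.le, hN1 m2 r2 hr2.le] at s1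
    rw [← en1, ← en2, ← en3, hN1 m1 r1 hr1.le, hN1 m2 r2 hr2.le, hN1 m3 r3 hr3.le] at t1
    rw [← en1, ← en2, ← en0, hN2 m0 r0 hr0.le, hN2 m1 r1 hr1.le, hN2 m2 r2 hr2.le] at s2
    rw [← en1, ← en2, ← en3, hN2 m1 r1 hr1.le, hN2 m2 r2 hr2.le, hN2 m3 r3 hr3.le] at t2
    -- weights
    have hom : ∀ a < 3, (M.o1 : ZMod M.D) * M.P1 a M.L + M.o2 * M.P2 a M.L = M.be := by
      intro a ha
      have h1 : (M.o1 * M.P1 a M.L + M.o2 * M.P2 a M.L) % M.D = M.be % M.D := by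
        rw [h.om a ha, Nat.mod_eq_of_lt h.beD]
      have h2 := (ZMod.natCast_eq_natCast_iff' _ _ _).2 h1
      push_cast at h2
      exact h2
    have hR : ∀ a < 3, ∀ r < M.L, (M.R a r : ZMod M.D) = M.o1 * M.P1 a r + M.o2 * M.P2 a r := by
      intro a ha r hr
      have h1 : M.R a r % M.D = (M.o1 * M.P1 a r + M.o2 * M.P2 a r) % M.D := by
        rw [h.R1 a ha r hr, Nat.mod_mod]
      have h2 := (ZMod.natCast_eq_natCast_iff' _ _ _).2 h1
      push_cast at h2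
      exact h2
    have hom0 := hom 0 (by norm_num)
    have hom1 := hom 1 (by norm_num)
    have hom2 := hom 2 (by norm_num)
    have s1z := congrArg (Int.cast : ℤ → ZMod M.D) s1
    have t1z := congrArg (Int.cast : ℤ → ZMod M.D) t1
    have s2z := congrArg (Int.cast : ℤ → ZMod M.D) s2
    have t2z := congrArg (Int.cast : ℤ → ZMod M.D) t2
    push_cast at s1z t1z s2z t2z
    have v2 : (M.be : ZMod M.D) * m0 + M.R (z m0) r0 + (M.be * m2 + M.R (z m2) r2) =
        2 * (M.be * m1 + M.R (z m1) r1) := by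
      rw [hR _ z0 _ hr0, hR _ z1 _ hr1, hR _ z2 _ hr2]
      linear_combination (M.o1 : ZMod M.D) * s1z + (M.o2 : ZMod M.D) * s2z -
        (m0 + m2 - 2 * m1) * hom0 -
        ((N z 1 m0 : ZMod M.D) + N z 1 m2 - 2 * N z 1 m1) * (hom1 - hom0) -
        ((N z 2 m0 : ZMod M.D) + N z 2 m2 - 2 * N z 2 m1) * (hom2 - hom0)
    have v3 : (M.be : ZMod M.D) * m1 + M.R (z m1) r1 + (M.be * m3 + M.R (z m3) r3) =
        2 * (M.be * m2 + M.R (z m2) r2) := by
      rw [hR _ z1 _ hr1, hR _ z2 _ hr2, hR _ z3 _ hr3]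
      linear_combination (M.o1 : ZMod M.D) * t1z + (M.o2 : ZMod M.D) * t2z -
        (m1 + m3 - 2 * m2) * hom0 -
        ((N z 1 m1 : ZMod M.D) + N z 1 m3 - 2 * N z 1 m2) * (hom1 - hom0) -
        ((N z 2 m1 : ZMod M.D) + N z 2 m3 - 2 * N z 2 m2) * (hom2 - hom0)
    have e2 : (M.L * m0 + r0) + (M.L * m2 + r2) = 2 * (M.L * m1 + r1) := by omega
    have e3 : (M.L * m1 + r1) + (M.L * m3 + r3) = 2 * (M.L * m2 + r2) := by omega
    obtain ⟨hr, hRR⟩ := classes M h (z m0) (z m1) (z m2) (z m3) r0 r1 r2 r3 m0 m1 m2 m3 z0 z1 z2 z3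
      hr0 hr1 hr2 hr3 e2 e3 v2 v3
    subst hr
    -- all offsets are equal
    obtain ⟨c2, hc2, hc2'⟩ := carry M.L m0 m1 m2 r0 r0 r2 hr0 hr0 hr2 e2
    have c2e : c2 = 1 := by
      by_contra hne
      rcases Nat.lt_or_gt_of_ne hne with hlt | hgt
      · have : c2 = 0 := by omega
        subst this
        omega
      · have : M.L * 2 ≤ M.L * c2 := Nat.mul_le_mul_left M.L hgt
        omega
    subst c2e
    have r2e : r2 = r0 := by omega
    subst r2e
    obtain ⟨c3, hc3, hc3'⟩ := carry M.L m1 m2 m3 r2 r2 r3 hr0 hr0 hr3 e3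
    have c3e : c3 = 1 := by
      by_contra hne
      rcases Nat.lt_or_gt_of_ne hne with hlt | hgt
      · have : c3 = 0 := by omega
        subst this
        omega
      · have : M.L * 2 ≤ M.L * c3 := Nat.mul_le_mul_left M.L hgt
        omega
    subst c3e
    have r3e : r3 = r2 := by omega
    subst r3e
    have hm2 : m0 + m2 = 2 * m1 := by omega
    have hm3 : m1 + m3 = 2 * m2 := by omega
    have hqL : M.L * m1 = M.L * m0 + q := by omega
    have hm01 : m0 < m1 := by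
      by_contra hcon
      push Not at hcon
      have := Nat.mul_le_mul_left M.L hcon
      omega
    obtain ⟨q', hq'⟩ : ∃ q', m1 = m0 + q' := ⟨m1 - m0, by omega⟩
    have hq'0 : 0 < q' := by omega
    have hqq : q = M.L * q' := by
      rw [hq', Nat.mul_add] at hqL
      omega
    have hlt : q' < q := by
      rw [hqq]
      have := Nat.mul_le_mul_right q' h.L0
      omega
    have hm2' : m2 = m0 + 2 * q' := by omega
    have hm3' : m3 = m0 + 3 * q' := by omega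
    -- residues
    have hRlt : ∀ a < 3, M.R a r3 < M.D := by
      intro a ha
      rw [h.R1 a ha r3 hr3]
      exact Nat.mod_lt _ h.D0
    have hm2z : (m0 : ZMod M.D) + m2 = 2 * m1 := by exact_mod_cast congrArg _ hm2
    have hm3z : (m1 : ZMod M.D) + m3 = 2 * m2 := by exact_mod_cast congrArg _ hm3
    have R02 : M.R (z m0) r3 = M.R (z m2) r3 := by
      have h5 : ((M.R (z m0) r3 : ℕ) : ZMod M.D) = ((M.R (z m2) r3 : ℕ) : ZMod M.D) := by
        have h6 : ((M.R (z m0) r3 : ℕ) : ZMod M.D) = ((M.R (z m1) r3 : ℕ) : ZMod M.D) := by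
          rw [hRR]
        linear_combination (M.be : ZMod M.D) * hm2z - v2 + 2 * h6
      have h7 := (ZMod.natCast_eq_natCast_iff' _ _ _).1 h5
      rwa [Nat.mod_eq_of_lt (hRlt _ z0), Nat.mod_eq_of_lt (hRlt _ z2)] at h7
    have R03 : M.R (z m0) r3 = M.R (z m3) r3 := by
      have h5 : ((M.R (z m0) r3 : ℕ) : ZMod M.D) = ((M.R (z m3) r3 : ℕ) : ZMod M.D) := by
        have h6 : ((M.R (z m0) r3 : ℕ) : ZMod M.D) = ((M.R (z m1) r3 : ℕ) : ZMod M.D) := by
          rw [hRR]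
        have h8 : ((M.R (z m0) r3 : ℕ) : ZMod M.D) = ((M.R (z m2) r3 : ℕ) : ZMod M.D) := by
          rw [R02]
        linear_combination (M.be : ZMod M.D) * hm3z - v3 + 2 * h8 - h6
      have h7 := (ZMod.natCast_eq_natCast_iff' _ _ _).1 h5
      rwa [Nat.mod_eq_of_lt (hRlt _ z0), Nat.mod_eq_of_lt (hRlt _ z3)] at h7
    have hm2i : (m0 : ℤ) + m2 - 2 * m1 = 0 := by omega
    have hm3i : (m1 : ℤ) + m3 - 2 * m2 = 0 := by omega
    rcases h.co r3 hr3 (z m0) z0 with hco | hco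
    · -- equal prefixes
      obtain ⟨a1, b1⟩ := hco _ z1 hRR
      obtain ⟨a2, b2⟩ := hco _ z2 R02
      obtain ⟨a3, b3⟩ := hco _ z3 R03
      have a1z : (M.P1 (z m0) r3 : ℤ) = M.P1 (z m1) r3 := by exact_mod_cast a1
      have a2z : (M.P1 (z m0) r3 : ℤ) = M.P1 (z m2) r3 := by exact_mod_cast a2
      have a3z : (M.P1 (z m0) r3 : ℤ) = M.P1 (z m3) r3 := by exact_mod_cast a3
      have b1z : (M.P2 (z m0) r3 : ℤ) = M.P2 (z m1) r3 := by exact_mod_cast b1
      have b2z : (M.P2 (z m0) r3 : ℤ) = M.P2 (z m2) r3 := by exact_mod_cast b2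
      have b3z : (M.P2 (z m0) r3 : ℤ) = M.P2 (z m3) r3 := by exact_mod_cast b3
      obtain ⟨i1, i2⟩ := h.inv (N z 1 m0 + N z 1 m2 - 2 * N z 1 m1)
        (N z 2 m0 + N z 2 m2 - 2 * N z 2 m1) ((m0 : ℤ) + m2 - 2 * m1) hm2i
        (by linear_combination s1 - 2 * a1z + a2z) (by linear_combination s2 - 2 * b1z + b2z)
      obtain ⟨i3, i4⟩ := h.inv (N z 1 m1 + N z 1 m3 - 2 * N z 1 m2)
        (N z 2 m1 + N z 2 m3 - 2 * N z 2 m2) ((m1 : ℤ) + m3 - 2 * m2) hm3i
        (by linear_combination t1 + a1z - 2 * a2z + a3z)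
        (by linear_combination t2 + b1z - 2 * b2z + b3z)
      rw [hq', hm2'] at i1 i2
      rw [hq', hm2', hm3'] at i3 i4
      refine ih q' hlt m0 hq'0 fun c hc => ?_
      rcases hc with rfl | rfl
      · exact ⟨by linarith, by linarith⟩
      · exact ⟨by linarith, by linarith⟩
    · -- equal rests
      obtain ⟨a1, b1⟩ := hco _ z1 hRR
      obtain ⟨a2, b2⟩ := hco _ z2 R02
      obtain ⟨a3, b3⟩ := hco _ z3 R03
      have hS : ∀ (c : ℕ) (m : ℕ), N z c (m + 1) = N z c m + if z m = c then 1 else 0 :=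
        fun c m => N_succ z c m
      -- the coefficients at the letters
      have hlet : ∀ (P : ℕ → ℕ → ℕ) (m : ℕ), (P (z m) M.L : ℤ) = P 0 M.L +
          ((P 1 M.L : ℤ) - P 0 M.L) * (N z 1 (m + 1) - N z 1 m) +
          ((P 2 M.L : ℤ) - P 0 M.L) * (N z 2 (m + 1) - N z 2 m) := by
        intro P m
        rw [hS, hS]
        have h3 := hz.1 m
        have h4 : z m = 0 ∨ z m = 1 ∨ z m = 2 := by omega
        rcases h4 with h4 | h4 | h4
        · rw [h4]; simp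
        · rw [h4]; simp
        · rw [h4]; simp
      have a1z : (M.P1 (z m0) r3 : ℤ) + M.P1 (z m1) M.L = M.P1 (z m1) r3 + M.P1 (z m0) M.L := by
        exact_mod_cast a1
      have a2z : (M.P1 (z m0) r3 : ℤ) + M.P1 (z m2) M.L = M.P1 (z m2) r3 + M.P1 (z m0) M.L := by
        exact_mod_cast a2
      have a3z : (M.P1 (z m0) r3 : ℤ) + M.P1 (z m3) M.L = M.P1 (z m3) r3 + M.P1 (z m0) M.L := by
        exact_mod_cast a3
      have b1z : (M.P2 (z m0) r3 : ℤ) + M.P2 (z m1) M.L = M.P2 (z m1) r3 + M.P2 (z m0) M.L := by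
        exact_mod_cast b1
      have b2z : (M.P2 (z m0) r3 : ℤ) + M.P2 (z m2) M.L = M.P2 (z m2) r3 + M.P2 (z m0) M.L := by
        exact_mod_cast b2
      have b3z : (M.P2 (z m0) r3 : ℤ) + M.P2 (z m3) M.L = M.P2 (z m3) r3 + M.P2 (z m0) M.L := by
        exact_mod_cast b3
      have p0 := hlet M.P1 m0
      have p1 := hlet M.P1 m1
      have p2 := hlet M.P1 m2
      have p3 := hlet M.P1 m3
      have g0 := hlet M.P2 m0
      have g1 := hlet M.P2 m1
      have g2 := hlet M.P2 m2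
      have g3 := hlet M.P2 m3
      obtain ⟨i1, i2⟩ := h.inv (N z 1 (m0 + 1) + N z 1 (m2 + 1) - 2 * N z 1 (m1 + 1))
        (N z 2 (m0 + 1) + N z 2 (m2 + 1) - 2 * N z 2 (m1 + 1)) ((m0 : ℤ) + m2 - 2 * m1) hm2i
        (by linear_combination s1 - 2 * a1z + a2z - p0 - p2 + 2 * p1)
        (by linear_combination s2 - 2 * b1z + b2z - g0 - g2 + 2 * g1)
      obtain ⟨i3, i4⟩ := h.inv (N z 1 (m1 + 1) + N z 1 (m3 + 1) - 2 * N z 1 (m2 + 1))
        (N z 2 (m1 + 1) + N z 2 (m3 + 1) - 2 * N z 2 (m2 + 1)) ((m1 : ℤ) + m3 - 2 * m2) hm3i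
        (by linear_combination t1 + a1z - 2 * a2z + a3z - p1 - p3 + 2 * p2)
        (by linear_combination t2 + b1z - 2 * b2z + b3z - g1 - g3 + 2 * g2)
      rw [hq', hm2'] at i1 i2
      rw [hq', hm2', hm3'] at i3 i4
      refine ih q' hlt (m0 + 1) hq'0 fun c hc => ?_
      rw [show m0 + 1 + 2 * q' = m0 + 2 * q' + 1 by ring,
        show m0 + 1 + 3 * q' = m0 + 3 * q' + 1 by ring, show m0 + 1 + q' = m0 + q' + 1 by ring]
      rcases hc with rfl | rfl
      · exact ⟨by linarith, by linarith⟩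
      · exact ⟨by linarith, by linarith⟩

end Pool.Agent.T2H15.AC
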